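import Mathlib
import Pool.Agent.helper89.PU.Spec1

/-!
# Project PU (MP_2e0e07_nt): row DBL, assembly of the doubling
-/

set_option autoImplicit false

namespace Pool.Agent.PV

open Matrix Polynomial Pool.Agent.GO Pool.Agent.AR Pool.Agent.RG Pool.Agent.HZ Pool.Agent.DS
  Pool.Agent.AX Pool.Agent.UM Pool.Agent.PU MeasureTheory NumberField

theorem DBL_swap {K m : Type} [NormedField K] [Fintype m] (l : m → K) (α β : K) :
    ‖∏ i, ∏ j, (α * l j - β * l i)‖ = ‖∏ i, ∏ j, (β * l j - α * l i)‖ := by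
  rw [Finset.prod_comm]
  simp only [norm_prod]
  refine Finset.prod_congr rfl fun i _ => Finset.prod_congr rfl fun j _ => ?_
  rw [norm_sub_rev]

theorem DBL_root {K : Type} [NormedField K] [IsUltrametricDist K] {x t d : K}
    (ht : ‖t‖ ≤ 1) (hd : ‖d‖ ≤ 1) (hx : x ^ 2 = t * x - d) : ‖x‖ ≤ 1 := by
  by_contra hlt
  rw [not_le] at hlt
  have h1 : ‖x ^ 2‖ ≤ ‖x‖ := by
    rw [hx]
    refine nsub ?_ (hd.trans hlt.le)
    rw [norm_mul]
    exact mul_le_of_le_one_left (norm_nonneg _) ht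
  rw [norm_pow] at h1
  nlinarith

theorem DBL_conj {Γ m : Type} [Group Γ] [Fintype m] [DecidableEq m] {p : ℕ} [Fact p.Prime]
    (V : Γ →* Matrix m m ℤ_[p]) (a h : Γ) (r : ℕ)
    (hV : ∀ i j, (p : ℤ_[p]) ^ r ∣ (V h - 1) i j) :
    ∀ i j, (p : ℤ_[p]) ^ r ∣ (V (a * h * a⁻¹) - 1) i j := by
  have h1 : ∀ i j, ∃ y, (V h - 1) i j = (p : ℤ_[p]) ^ r * y := fun i j => hV i j
  choose X hX using h1
  have h2 : V h - 1 = (p : ℤ_[p]) ^ r • (Matrix.of X) := by
    ext1 i j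
    rw [hX, Matrix.smul_apply, Matrix.of_apply, smul_eq_mul]
  have h3 : V (a * h * a⁻¹) - 1 = (p : ℤ_[p]) ^ r • (V a * Matrix.of X * V a⁻¹) := by
    have h4 : V (a * h * a⁻¹) - 1 = V a * (V h - 1) * V a⁻¹ := by
      rw [map_mul, map_mul, Matrix.mul_sub, Matrix.sub_mul, Matrix.mul_one, hom_mul_inv']
    rw [h4, h2, Matrix.mul_smul, Matrix.smul_mul]
  intro i j
  rw [h3, Matrix.smul_apply, smul_eq_mul]
  exact dvd_mul_right _ _

theorem DBL_dprod {Γ : Type} [Group Γ] (G₁ : Subgroup Γ) (hn : G₁.Normal) (g h : Γ) (hh : h ∈ G₁)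
    (e : ℕ → ℕ) : ∀ n, dprod g h e n ∈ G₁
  | 0 => G₁.one_mem
  | n + 1 => G₁.mul_mem (DBL_dprod G₁ hn g h hh e n) (hn.conj_mem _ (G₁.pow_mem hh _) _)

theorem DBL_appr {p : ℕ} [Fact p.Prime] (s : ℕ) (c : ℤ_[p]) :
    ∃ e : ℕ, (p : ℤ_[p]) ^ s ∣ (e : ℤ_[p]) - c := by
  refine ⟨c.appr s, ?_⟩
  have h1 := PadicInt.appr_spec s c
  rw [Ideal.mem_span_singleton] at h1
  rw [← neg_sub, dvd_neg]
  exact h1

theorem DBL_sum {p : ℕ} [Fact p.Prime] {K : Type} [NormedField K] [NormedAlgebra ℚ_[p] K]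
    (c : ℤ_[p][X]) (e : ℕ → ℕ) (s : ℕ) (he : ∀ k, (p : ℤ_[p]) ^ s ∣ (e k : ℤ_[p]) - c.coeff k)
    (x : K) (hx : ‖x‖ = 1) :
    ‖∑ k ∈ Finset.range (c.natDegree + 1), (e k : K) * x ^ k - (c.map (toF p K)).eval x‖
      ≤ ((p : ℝ)⁻¹) ^ s := by
  have := ultra p K
  have h1 : (c.map (toF p K)).eval x
      = ∑ k ∈ Finset.range (c.natDegree + 1), toF p K (c.coeff k) * x ^ k := by
    rw [Polynomial.eval_eq_sum_range' (Nat.lt_succ_of_le Polynomial.natDegree_map_le)]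
    simp only [Polynomial.coeff_map]
  rw [h1, ← Finset.sum_sub_distrib]
  refine IsUltrametricDist.norm_sum_le_of_forall_le_of_nonneg (by positivity) fun k _ => ?_
  have h2 : (e k : K) * x ^ k - toF p K (c.coeff k) * x ^ k
      = toF p K ((e k : ℤ_[p]) - c.coeff k) * x ^ k := by
    rw [map_sub, map_natCast, sub_mul]
  rw [h2, norm_mul, norm_pow, hx, one_pow, mul_one, norm_toF]
  obtain ⟨y, hy⟩ := he k
  rw [hy, norm_mul, norm_pow, PadicInt.norm_p]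
  exact mul_le_of_le_one_right (by positivity) (PadicInt.norm_le_one y)

theorem DBL_main (hKLP : KLP_stmt) (hLAM : LAM_stmt) (hDBR : DBR_stmt) (hDBV : DBV_stmt)
    (p : ℕ) [Fact p.Prime] {Γ K : Type} [Group Γ] [TopologicalSpace Γ]
    [NormedField K] [NormedAlgebra ℚ_[p] K] [IsAlgClosed K]
    (R : Γ →* Matrix (Fin 2) (Fin 2) K) (G₁ : Subgroup Γ) (κ : ℝ) (hL : Lvl R G₁ κ)
    {m : Type} [Fintype m] [DecidableEq m] (V : Γ →* Matrix m m ℤ_[p]) (g : Γ) (l : m → K)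
    (hl : ((V g).map (toF p K)).charpoly = ∏ i, (X - C (l i)))
    (α β : K) (hs : α + β = (R g).trace) (hd : α * β = (R g).det) (w : Fin 2 → K)
    (hw : ∀ i, ‖w i‖ ≤ 1) (hw1 : ‖w 0‖ = 1 ∨ ‖w 1‖ = 1)
    (hlam : ∀ Y, β * lam w (R g * Y * R g⁻¹) = α * lam w Y)
    (r : ℕ) (h : Γ) (hh : h ∈ Lv V G₁ r)
    (hlt : nu (R h) < κ * ‖∏ i, ∏ j, (α * l j - β * l i)‖) (bpos : 0 < nu (R h)) :
    ∃ h' ∈ Lv V G₁ (2 * r), κ * ‖∏ i, ∏ j, (α * l j - β * l i)‖ * nu (R h) ≤ nu (R h') := by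
  have := ultra p K
  have hκ := hL.pos
  have h2 : ‖(2 : K)‖ ≤ 1 := by
    have := IsUltrametricDist.norm_natCast_le_one K 2
    simpa using this
  have b1 : nu (R h) < 1 := by
    refine (hL.small h hh.1).trans_le ?_
    calc κ * ‖(2 : K)‖ ≤ 1 * 1 := mul_le_mul hL.le h2 (norm_nonneg _) zero_le_one
      _ = 1 := one_mul 1
  have hdet : ‖α * β‖ = 1 := by
    rw [hd]
    exact det_unit hL.int g
  have htr : ‖α + β‖ ≤ 1 := by
    rw [hs, Matrix.trace_fin_two]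
    exact nadd (hL.int g 0 0) (hL.int g 1 1)
  have hα : ‖α‖ ≤ 1 := DBL_root htr hdet.le (by ring)
  have hβ : ‖β‖ ≤ 1 := DBL_root htr hdet.le (by ring)
  have hdet' : ‖α‖ * ‖β‖ = 1 := by rw [← norm_mul, hdet]
  have hβ1 : ‖β‖ = 1 := by
    refine le_antisymm hβ ?_
    rw [← hdet']
    exact mul_le_of_le_one_left (norm_nonneg _) hα
  have hα1 : ‖α‖ = 1 := by
    rw [hβ1, mul_one] at hdet'
    exact hdet'
  have hβ0 : β ≠ 0 := by
    intro h0
    rw [h0, norm_zero] at hβ1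
    exact zero_ne_one hβ1
  have hα0 : α ≠ 0 := by
    intro h0
    rw [h0, norm_zero] at hα1
    exact zero_ne_one hα1
  set x : K := α / β with hxdef
  have hx : ‖x‖ = 1 := by rw [hxdef, norm_div, hα1, hβ1, div_one]
  have hx0 : x ≠ 0 := div_ne_zero hα0 hβ0
  have hxβ : β * x = α := by
    rw [hxdef]
    field_simp
  have hlam' : ∀ Y, lam w (R g * Y * R g⁻¹) = x * lam w Y := by
    intro Y
    have h3 := hlam Y
    refine mul_left_cancel₀ hβ0 ?_
    rw [h3, ← mul_assoc, hxβ]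
  -- the conjugate
  have hconj : ∃ a : Γ, κ * nu (R h) ≤ ‖lam w (R (a * h * a⁻¹))‖ := by
    obtain ⟨a, b, c, habc⟩ := hL.spn h hh.1
    rcases hLAM (R (a * h * a⁻¹)) (R (b * h * b⁻¹)) (R (c * h * c⁻¹)) w κ (nu (R h)) hw hw1
      (nu_rep_conj hL.int a h).le (nu_rep_conj hL.int b h).le (nu_rep_conj hL.int c h).le habc
      with h4 | h4 | h4
    · exact ⟨a, h4⟩
    · exact ⟨b, h4⟩
    · exact ⟨c, h4⟩
  obtain ⟨a, ha⟩ := hconj
  set h₁ := a * h * a⁻¹ with hh₁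
  have hmem : h₁ ∈ G₁ := hL.normal.conj_mem h hh.1 a
  have hV1 : ∀ i j, (p : ℤ_[p]) ^ r ∣ (V h₁ - 1) i j := DBL_conj V a h r hh.2
  have hnu : nu (R h₁) = nu (R h) := nu_rep_conj hL.int a h
  obtain ⟨c, hc1, hc2⟩ := hKLP (V g) (V g⁻¹) (hom_mul_inv' V g) (hom_inv_mul' V g)
  set θ : ℝ := ‖∏ i, ∏ j, (α * l j - β * l i)‖ with hθ
  have hθ2 : ‖(c.map (toF p K)).eval x‖ = θ := by
    rw [hc2 (toF p K) l hl x hx0, hθ]
    simp only [norm_prod]
    refine Finset.prod_congr rfl fun i _ => Finset.prod_congr rfl fun j _ => ?_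
    have h5 : α * l j - β * l i = β * (x * l j - l i) := by
      rw [← hxβ]
      ring
    rw [h5, norm_mul, hβ1, one_mul]
  have hθpos : 0 < θ := by
    have h6 : 0 < κ * θ := bpos.trans hlt
    exact pos_of_mul_pos_right h6 hκ.le
  have hp1 : ((p : ℝ)⁻¹) < 1 := by
    have h7 : (1 : ℝ) < p := by exact_mod_cast (Fact.out : p.Prime).one_lt
    exact inv_lt_one_of_one_lt₀ h7
  have hp0 : 0 ≤ ((p : ℝ)⁻¹) := by positivity
  obtain ⟨s₀, hs₀⟩ := exists_pow_lt_of_lt_one hθpos hp1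
  set s := max r s₀ with hsdef
  have hs1 : ((p : ℝ)⁻¹) ^ s < θ :=
    (pow_le_pow_of_le_one hp0 hp1.le (le_max_right r s₀)).trans_lt hs₀
  choose e he using fun k => DBL_appr (p := p) s (c.coeff k)
  have hsum := DBL_sum (K := K) c e s he x hx
  set E := (c.map (toF p K)).eval x with hE
  set S := ∑ k ∈ Finset.range (c.natDegree + 1), (e k : K) * x ^ k with hS
  have hSθ : ‖S‖ = θ := by
    have h8 : ‖S - E‖ < θ := hsum.trans_lt hs1
    refine le_antisymm ?_ ?_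
    · have h9 : S = E + (S - E) := by ring
      rw [h9]
      exact nadd hθ2.le h8.le
    · by_contra hcon
      rw [not_le] at hcon
      have h9 : ‖E‖ < θ := by
        have h10 : E = S - (S - E) := by ring
        rw [h10, sub_eq_add_neg]
        refine (IsUltrametricDist.norm_add_le_max _ _).trans_lt (max_lt hcon ?_)
        rwa [norm_neg]
      exact absurd hθ2 h9.ne
  have hbig : κ * θ * nu (R h) ≤ ‖S‖ * ‖lam w (R h₁)‖ := by
    rw [hSθ]
    calc κ * θ * nu (R h) = θ * (κ * nu (R h)) := by ring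
      _ ≤ θ * ‖lam w (R h₁)‖ := mul_le_mul_of_nonneg_left ha hθpos.le
  have hsq : nu (R h) ^ 2 < ‖S‖ * ‖lam w (R h₁)‖ := by
    refine lt_of_lt_of_le ?_ hbig
    rw [pow_two]
    exact mul_lt_mul_of_pos_right hlt bpos
  have hR := hDBR R hL.int g h₁ w x (nu (R h)) hw hx hlam' hnu.le b1 e (c.natDegree + 1) hsq
  refine ⟨dprod g h₁ e (c.natDegree + 1), ⟨DBL_dprod G₁ hL.normal g h₁ hmem e _, ?_⟩,
    hbig.trans hR⟩
  refine hDBV p V g h₁ r (c.natDegree + 1) c.coeff e hc1 (fun k => ?_) hV1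
  exact (pow_dvd_pow _ (le_max_left r s₀)).trans (he k)

theorem DBL (hKLP : KLP_stmt) (hEIG : EIG_stmt) (hLAM : LAM_stmt) (hDBR : DBR_stmt)
    (hDBV : DBV_stmt) : DBL_stmt := by
  intro p _ Γ K _ _ _ _ _ R G₁ κ hL m _ _ V g l hl α β hs hd r h hh hlt
  by_cases b0 : nu (R h) = 0
  · refine ⟨1, ⟨G₁.one_mem, fun i j => ?_⟩, ?_⟩
    · rw [map_one, sub_self]
      exact dvd_zero _
    · rw [b0, mul_zero]
      exact nu_nonneg _
  have bpos : 0 < nu (R h) := lt_of_le_of_ne (nu_nonneg _) (Ne.symm b0)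
  obtain ⟨w, α', β', hw, hw1, hs', hd', hlam⟩ :=
    hEIG (R g) (R g⁻¹) (hom_mul_inv' R g) (hom_inv_mul' R g)
  have hcase : (α' - α) * (α' - β) = 0 := by
    have h1 : α' + β' = α + β := by rw [hs', hs]
    have h2 : α' * β' = α * β := by rw [hd', hd]
    have h3 : (α' - α) * (α' - β) = α' ^ 2 - (α + β) * α' + α * β := by ring
    rw [h3, ← h1, ← h2]
    ring
  rcases mul_eq_zero.1 hcase with h1 | h1
  · have h2 : α' = α := sub_eq_zero.1 h1
    have h3 : β' = β := by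
      have h4 : α' + β' = α + β := by rw [hs', hs]
      rw [h2] at h4
      exact add_left_cancel h4
    rw [h2, h3] at hlam
    exact DBL_main hKLP hLAM hDBR hDBV p R G₁ κ hL V g l hl α β hs hd w hw hw1 hlam r h hh hlt bpos
  · have h2 : α' = β := sub_eq_zero.1 h1
    have h3 : β' = α := by
      have h4 : α' + β' = α + β := by rw [hs', hs]
      rw [h2, add_comm α β] at h4
      exact add_left_cancel h4
    rw [h2, h3] at hlam
    rw [DBL_swap l α β] at hlt ⊢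
    exact DBL_main hKLP hLAM hDBR hDBV p R G₁ κ hL V g l hl β α (by rw [add_comm, hs])
      (by rw [mul_comm, hd]) w hw hw1 hlam r h hh hlt bpos

end Pool.Agent.PV
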